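import Pool.Agent.H89.FC.TargetsN
import Pool.Agent.H75.FM.PBD

/-!
# MP_52e316_nt, board `fmx_modules`, row NPB: the bound for the `L`-function by the partial sums
-/

set_option autoImplicit false

open MeasureTheory Set Filter NumberField
open scoped Real nonZeroDivisors Topology

namespace Pool.Agent.H90.FC

open Pool.Agent.H31.CN Pool.Agent.H89.FM Pool.Agent.H61.FM Pool.Agent.H89.FC
open Pool.Agent.H75.FM (rpow_bd rpow_div_bd int_h)

theorem cG_pos (m : ℕ) (t : ℝ) : 0 < cG m t := by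
  unfold cG
  have h1 : 0 < Real.sqrt (((m : ℝ) + 1) ^ 2 + t ^ 2) := Real.sqrt_pos.2 (by positivity)
  have h2 : (0 : ℝ) < m.factorial := by exact_mod_cast m.factorial_pos
  positivity

theorem tum_norm (m : ℕ) (t : ℝ) : ‖tum m t‖ = 1 := Complex.norm_exp_ofReal_mul_I _

theorem tum_re (m : ℕ) (t : ℝ) : 0 < (tum m t).re := by
  unfold tum
  rw [Complex.exp_ofReal_mul_I_re]
  exact Real.cos_arctan_pos _

theorem pf_PBDc (hLFK : T_LFKc) (hKRB : T_KRBc) (hABS : T_ABSc) (hGML : T_GMLc) (hSPT : T_SPTc) :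
    T_PBDc := by
  obtain ⟨C₁, k₁, c, hC₁, hc, hK⟩ := hKRB
  obtain ⟨C₂, k₂, hC₂, hG⟩ := hGML
  obtain ⟨C₃, hC₃, hS⟩ := hSPT
  refine ⟨2 * C₁ * C₂, k₁ + k₂, c, by positivity, hc, ?_⟩
  intro K _ _ σ D f m ψ F hD hR hF s κ hs hκ
  obtain ⟨hSm, hSb⟩ := hS K σ D f m ψ hD hR
  have hκ0 : 0 ≤ κ := (abs_nonneg _).trans hs
  have hs8 : |s.re - 1 / 2| ≤ 1 / 8 := hs.trans hκ
  obtain ⟨hs1, hs2⟩ := abs_le.1 hs
  obtain ⟨hs3, hs4⟩ := abs_le.1 hs8
  have hmM : |(m : ℝ)| = ((m.natAbs : ℕ) : ℝ) := by rw [Nat.cast_natAbs, Int.cast_abs]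
  rw [hmM]
  set M : ℕ := m.natAbs with hMdef
  set T : ℝ := 1 + |s.im| + (M : ℝ) with hT
  have hT1 : 1 ≤ T := by
    have h1 := abs_nonneg s.im
    have h2 : (0 : ℝ) ≤ M := M.cast_nonneg
    linarith
  have hT0 : 0 < T := by linarith
  have hD1 : (1 : ℝ) ≤ D := by exact_mod_cast hD.pos
  have hD0 : (0 : ℝ) < D := by linarith
  have hf1 : (1 : ℝ) ≤ f := by exact_mod_cast hR.pos
  have hf0 : (0 : ℝ) < f := by linarith
  set B : ℝ := (D : ℝ) * (f : ℝ) ^ 2 with hB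
  have hf2 : (1 : ℝ) ≤ (f : ℝ) ^ 2 := one_le_pow₀ hf1
  have hB1 : 1 ≤ B := by
    rw [hB]
    nlinarith
  have hB0 : 0 < B := by linarith
  set q : ℝ := (f : ℝ) * Real.sqrt D with hq
  have hqB : q = Real.sqrt B := by
    rw [hq, hB, Real.sqrt_mul hD0.le, Real.sqrt_sq hf0.le, mul_comm]
  have hq1 : 1 ≤ q := by
    rw [hqB, Real.one_le_sqrt]
    exact hB1
  have hq0 : 0 < q := by linarith
  have hqT : 0 < q * T := by positivity
  set E₀ : ℝ := cG M s.im with hE₀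
  have hE₀p : 0 < E₀ := cG_pos _ _
  obtain ⟨hcont, hder⟩ := hK M s hs8
  set τ : ℂ := tum M s.im with hτ
  set Kf : ℝ → ℂ := fun r => Kmc M τ s (r : ℂ) with hKf
  set c₁ : ℝ := c / (q * T) with hc₁
  have hc₁p : 0 < c₁ := by positivity
  have hI : IntegrableOn (fun x : ℝ => ‖Sc ψ x‖ * x ^ (-(3 / 2) + κ) *
      Real.exp (-(c * x / (q * T)))) (Ioi 1) := by
    have h := int_h (Sc ψ) hSm C₃ c₁ (-(3 / 2) + κ) hC₃ hc₁p (by linarith) hSb
    have h1 : ∀ x : ℝ, c₁ * x = c * x / (q * T) := by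
      intro x
      rw [hc₁]
      ring
    simp only [h1] at h
    exact h
  refine ⟨hI, ?_⟩
  set I : ℝ := ∫ x in Ioi (1 : ℝ), ‖Sc ψ x‖ * x ^ (-(3 / 2) + κ) *
      Real.exp (-(c * x / (q * T))) with hIdef
  have hLF := hLFK K σ D f m ψ F hD hR hF τ s (tum_norm _ _) (tum_re _ _) (by linarith) (by
    rintro rfl
    simp at hs4
    linarith)
  set g : ℝ → ℂ := fun x => Kf (x / q) with hg
  have hgd : ∀ x : ℝ, 0 < x → HasDerivAt g ((1 / q : ℝ) • deriv Kf (x / q)) x := by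
    intro x hx
    have h1 := ((hder (x / q) (by positivity)).1).hasDerivAt
    have h2 : HasDerivAt (fun x : ℝ => x / q) (1 / q) x := (hasDerivAt_id x).div_const q
    exact HasDerivAt.scomp x h1 h2
  have hexp : ∀ x : ℝ, Real.exp (-(c * (x / q) / T)) = Real.exp (-(c₁ * x)) := by
    intro x
    congr 1
    rw [hc₁]
    field_simp
  have hM : ∀ x : ℝ, 1 ≤ x → DifferentiableAt ℝ g x ∧
      ‖g x‖ ≤ (C₁ * T ^ k₁ * E₀ * (q ^ 2 + q ^ 2)) * Real.exp (-(c₁ * x)) ∧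
      ‖deriv g x‖ ≤ (C₁ * T ^ k₁ * E₀ * (q ^ 2 + q ^ 2)) * Real.exp (-(c₁ * x)) := by
    intro x hx
    have hx0 : 0 < x := by linarith
    obtain ⟨-, hb1, hb2⟩ := hder (x / q) (by positivity)
    rw [hexp x] at hb1 hb2
    refine ⟨(hgd x hx0).differentiableAt, ?_, ?_⟩
    · refine hb1.trans (mul_le_mul_of_nonneg_right ?_ (Real.exp_pos _).le)
      refine mul_le_mul_of_nonneg_left (add_le_add ?_ ?_) (by positivity)
      · exact rpow_bd x q _ hx hq1 (by linarith) (by linarith)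
      · exact rpow_bd x q _ hx hq1 (by linarith) (by linarith)
    · rw [(hgd x hx0).deriv, norm_smul, Real.norm_of_nonneg (by positivity)]
      have h1 : 1 / q * ‖deriv Kf (x / q)‖ ≤ ‖deriv Kf (x / q)‖ :=
        mul_le_of_le_one_left (norm_nonneg _) ((div_le_one hq0).2 hq1)
      refine h1.trans (hb2.trans (mul_le_mul_of_nonneg_right ?_ (Real.exp_pos _).le))
      refine mul_le_mul_of_nonneg_left (add_le_add ?_ ?_) (by positivity)
      · exact rpow_bd x q _ hx hq1 (by linarith) (by linarith)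
      · exact rpow_bd x q _ hx hq1 (by linarith) (by linarith)
  have hgcont : ContinuousOn (deriv g) (Ici 1) := by
    have h1 : ContinuousOn (fun x : ℝ => (1 / q : ℝ) • deriv Kf (x / q)) (Ici 1) := by
      have h9 : ContinuousOn (fun x : ℝ => deriv Kf (x / q)) (Ici 1) := ?_
      · exact h9.const_smul (1 / q : ℝ)
      have h0 : ContinuousOn (fun x : ℝ => x / q) (Ici 1) :=
        (continuous_id.div_const q).continuousOn
      refine hcont.comp h0 ?_
      intro x hx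
      rw [mem_Ici] at hx
      exact div_pos (by linarith) hq0
    refine h1.congr fun x hx => ?_
    rw [mem_Ici] at hx
    exact (hgd x (by linarith)).deriv
  obtain ⟨hint, hval⟩ := hABS K σ D f m ψ hD hR g _ c₁ _ hc₁p hgcont hM hLF
  have hpt : ∀ x : ℝ, 1 < x → ‖Sc ψ x * deriv g x‖ ≤ (2 * C₁ * T ^ k₁ * E₀ * q ^ (1 / 2 + κ)) *
      (‖Sc ψ x‖ * x ^ (-(3 / 2) + κ) * Real.exp (-(c * x / (q * T)))) := by
    intro x hx
    have hx0 : 0 < x := by linarith
    obtain ⟨-, -, hb2⟩ := hder (x / q) (by positivity)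
    rw [hexp x] at hb2
    have h6 : Real.exp (-(c₁ * x)) = Real.exp (-(c * x / (q * T))) := by
      congr 1
      rw [hc₁]
      ring
    rw [h6] at hb2
    rw [norm_mul, (hgd x hx0).deriv, norm_smul, Real.norm_of_nonneg (by positivity)]
    have h1 := rpow_div_bd x q (-s.re - 1) κ hx.le hq1 (by linarith) (by linarith)
    have h2 := rpow_div_bd x q (s.re - 2) κ hx.le hq1 (by linarith) (by linarith)
    have h3 : 1 / q * ‖deriv Kf (x / q)‖ ≤ C₁ * T ^ k₁ * E₀ *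
        (2 * (q ^ (1 / 2 + κ) * x ^ (-(3 / 2) + κ))) * Real.exp (-(c * x / (q * T))) := by
      calc 1 / q * ‖deriv Kf (x / q)‖ ≤ 1 / q * (C₁ * T ^ k₁ * E₀ *
            ((x / q) ^ (-s.re - 1) + (x / q) ^ (s.re - 2)) *
            Real.exp (-(c * x / (q * T)))) := mul_le_mul_of_nonneg_left hb2 (by positivity)
        _ = C₁ * T ^ k₁ * E₀ * ((x / q) ^ (-s.re - 1) / q + (x / q) ^ (s.re - 2) / q) *
            Real.exp (-(c * x / (q * T))) := by ring
        _ ≤ _ := by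
            refine mul_le_mul_of_nonneg_right ?_ (Real.exp_pos _).le
            refine mul_le_mul_of_nonneg_left ?_ (by positivity)
            linarith
    calc ‖Sc ψ x‖ * (1 / q * ‖deriv Kf (x / q)‖) ≤ ‖Sc ψ x‖ * (C₁ * T ^ k₁ * E₀ *
        (2 * (q ^ (1 / 2 + κ) * x ^ (-(3 / 2) + κ))) * Real.exp (-(c * x / (q * T)))) :=
          mul_le_mul_of_nonneg_left h3 (norm_nonneg _)
      _ = _ := by ring
  have hnorm : ‖gM M s‖ * B ^ (s.re / 2) * ‖F s‖ ≤
      2 * C₁ * T ^ k₁ * E₀ * q ^ (1 / 2 + κ) * I := by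
    have h1 : ‖gM M s * ((f : ℂ) ^ 2 * D) ^ (s / 2) * F s‖ =
        ‖gM M s‖ * B ^ (s.re / 2) * ‖F s‖ := by
      have h3 : ((f : ℂ) ^ 2 * D) = ((f ^ 2 * D : ℕ) : ℂ) := by push_cast; ring
      have h4 : 0 < f ^ 2 * D := Nat.mul_pos (pow_pos hR.pos 2) hD.pos
      have h5 : ((f ^ 2 * D : ℕ) : ℝ) = B := by
        rw [hB]
        push_cast
        ring
      rw [h3, norm_mul, norm_mul, Complex.norm_natCast_cpow_of_pos h4, h5]
      congr 3
      have h2 : s / 2 = ((1 / 2 : ℝ) : ℂ) * s := by push_cast; ring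
      rw [h2, Complex.re_ofReal_mul]
      ring
    rw [← h1, hval, norm_neg, hIdef, ← integral_const_mul]
    refine (norm_integral_le_integral_norm _).trans ?_
    refine setIntegral_mono_on hint.norm (hI.const_mul _) measurableSet_Ioi fun x hx => ?_
    exact hpt x hx
  have hI0 : 0 ≤ I := by
    refine setIntegral_nonneg measurableSet_Ioi fun x hx => ?_
    rw [mem_Ioi] at hx
    have : 0 < x := by linarith
    positivity
  have hGs := hG M s hs8
  rw [← hT, ← hE₀] at hGs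
  have hGpos : 0 < ‖gM M s‖ := by
    by_contra hcon
    push Not at hcon
    have h1 : C₂ * T ^ k₂ * ‖gM M s‖ ≤ 0 :=
      mul_nonpos_of_nonneg_of_nonpos (by positivity) hcon
    linarith
  have hqD : q ^ (1 / 2 + κ) = B ^ (1 / 4 - κ / 2) * B ^ κ := by
    rw [hqB, Real.sqrt_eq_rpow, ← Real.rpow_mul hB0.le, ← Real.rpow_add hB0]
    congr 1
    ring
  have hDl : B ^ (1 / 4 - κ / 2) ≤ B ^ (s.re / 2) :=
    Real.rpow_le_rpow_of_exponent_le hB1 (by linarith)
  have hDp : 0 < B ^ (1 / 4 - κ / 2) := Real.rpow_pos_of_pos hB0 _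
  have hDκ : 0 < B ^ κ := Real.rpow_pos_of_pos hB0 _
  have hmain : (‖gM M s‖ * B ^ (1 / 4 - κ / 2)) * ‖F s‖ ≤
      (‖gM M s‖ * B ^ (1 / 4 - κ / 2)) *
        (2 * C₁ * C₂ * T ^ (k₁ + k₂) * B ^ κ * I) := by
    calc (‖gM M s‖ * B ^ (1 / 4 - κ / 2)) * ‖F s‖ ≤
          (‖gM M s‖ * B ^ (s.re / 2)) * ‖F s‖ := by
          refine mul_le_mul_of_nonneg_right ?_ (norm_nonneg _)
          exact mul_le_mul_of_nonneg_left hDl hGpos.le
      _ ≤ 2 * C₁ * T ^ k₁ * E₀ * q ^ (1 / 2 + κ) * I := hnorm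
      _ = (2 * C₁ * T ^ k₁ * q ^ (1 / 2 + κ) * I) * E₀ := by ring
      _ ≤ (2 * C₁ * T ^ k₁ * q ^ (1 / 2 + κ) * I) * (C₂ * T ^ k₂ * ‖gM M s‖) := by
          refine mul_le_mul_of_nonneg_left hGs ?_
          positivity
      _ = _ := by
          rw [hqD, pow_add]
          ring
  exact le_of_mul_le_mul_left hmain (by positivity)

end Pool.Agent.H90.FC
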